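import Pool.Agent.Work.MP_35f602_nt.End

set_option autoImplicit false

namespace Pool.Agent.Results.MP_35f602_nt.SignDetermined

/-- The Lucas-Lehmer numbers `S k`, `k ≥ 1`: `S 1 = 4` and `S (k + 1) = S k ^ 2 - 2` (the value
`S 0 = 4` is not used). -/
def S : ℕ → ℤ
  | 0 => 4
  | 1 => 4
  | k + 2 => S (k + 1) ^ 2 - 2

theorem S_succ : ∀ k : ℕ, 1 ≤ k → S (k + 1) = S k ^ 2 - 2
  | 0, h => absurd h (by norm_num)
  | _ + 1, _ => rfl

/-- the congruences forced on `a` and `b` modulo powers of two -/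
theorem normal {a b m : ℤ} (h : 32 * m - 1 = 4 * a ^ 2 + 27 * b ^ 2) :
    (∃ a' : ℤ, a = 1 + 4 * a' ∨ -a = 1 + 4 * a') ∧
    (∃ b' : ℤ, b = 1 + 16 * b' ∨ -b = 1 + 16 * b') := by
  have key : ∀ x y : ZMod 32, -1 = 4 * x ^ 2 + 27 * y ^ 2 →
      (y = 1 ∨ y = 15 ∨ y = 17 ∨ y = 31) ∧ (8 * x = 8 ∨ 8 * x = 24) := by
    decide +kernel
  have h32 : (32 : ZMod 32) = 0 := by decide
  have hc := congrArg (fun x : ℤ => (x : ZMod 32)) h
  push_cast at hc
  rw [h32, zero_mul, zero_sub] at hc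
  obtain ⟨hb, ha⟩ := key _ _ hc
  have cast : ∀ x y : ℤ, ((x : ℤ) : ZMod 32) = (y : ZMod 32) → (32 : ℤ) ∣ x - y := by
    intro x y hxy
    exact_mod_cast (ZMod.intCast_eq_intCast_iff_dvd_sub y x 32).1 hxy.symm
  constructor
  · rcases ha with ha | ha
    · have := cast (8 * a) 8 (by push_cast; exact ha)
      exact ⟨(a - 1) / 4, Or.inl (by omega)⟩
    · have := cast (8 * a) 24 (by push_cast; exact ha)
      exact ⟨(-a - 1) / 4, Or.inr (by omega)⟩
  · rcases hb with hb | hb | hb | hb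
    · have := cast b 1 (by push_cast; exact hb)
      exact ⟨(b - 1) / 16, Or.inl (by omega)⟩
    · have := cast b 15 (by push_cast; exact hb)
      exact ⟨(-b - 1) / 16, Or.inr (by omega)⟩
    · have := cast b 17 (by push_cast; exact hb)
      exact ⟨(b - 1) / 16, Or.inl (by omega)⟩
    · have := cast b 31 (by push_cast; exact hb)
      exact ⟨(-b - 1) / 16, Or.inr (by omega)⟩

/-- **Theorem.** Let `p ≥ 5` be such that `M = 2 ^ p - 1` is a prime number, and let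
`M = 4 a ^ 2 + 27 b ^ 2` with integers `a, b`. Then `a` is odd, the sign is `+1` exactly if
`a` is congruent to `1` or `-1` modulo `8`, and it is `-1` exactly if `a` is congruent to `3` or
`-3` modulo `8`. -/
theorem result (p : ℕ) (hp : 5 ≤ p) (hM : Nat.Prime (2 ^ p - 1)) (a b : ℤ)
    (hab : (2 : ℤ) ^ p - 1 = 4 * a ^ 2 + 27 * b ^ 2) :
    Odd a ∧
    (S (p - 2) ≡ 2 ^ ((p + 1) / 2) [ZMOD 2 ^ p - 1] ↔ a % 8 = 1 ∨ a % 8 = 7) ∧
    (S (p - 2) ≡ -2 ^ ((p + 1) / 2) [ZMOD 2 ^ p - 1] ↔ a % 8 = 3 ∨ a % 8 = 5) := by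
  have hpp : p.Prime := (Nat.prime_of_pow_sub_one_prime (a := 2) (by omega) hM).2
  have hodd : Odd p := hpp.odd_of_ne_two (by omega)
  have : Fact (mersenne p).Prime := ⟨hM⟩
  have hcast : (mersenne p : ℤ) = 2 ^ p - 1 := by
    have h1 : mersenne p + 1 = 2 ^ p := by
      rw [mersenne]; exact Nat.sub_add_cancel Nat.one_le_two_pow
    have h3 : ((mersenne p + 1 : ℕ) : ℤ) = ((2 ^ p : ℕ) : ℤ) := by rw [h1]
    push_cast at h3
    linarith
  have h32 : (2 : ℤ) ^ p - 1 = 32 * 2 ^ (p - 5) - 1 := by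
    have h2 : (2 : ℤ) ^ p = 32 * 2 ^ (p - 5) := by
      rw [show (32 : ℤ) = 2 ^ 5 by norm_num, ← pow_add, Nat.add_sub_cancel' hp]
    rw [h2]
  obtain ⟨⟨a', ha⟩, ⟨b', hb⟩⟩ := normal (h32 ▸ hab)
  have ha2 : a ^ 2 = (1 + 4 * a') ^ 2 := by
    rcases ha with ha | ha
    · rw [← ha]
    · rw [← ha, neg_sq]
  have hb2 : b ^ 2 = (1 + 16 * b') ^ 2 := by
    rcases hb with hb | hb
    · rw [← hb]
    · rw [← hb, neg_sq]
  have hcore := Pool.Agent.Work.MP_35f602_nt.core hp hodd S rfl S_succ (a' := a') (b' := b')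
    (by rw [← ha2, ← hb2, ← hab, hcast])
  rw [hcast] at hcore
  have hne : ¬ (2 : ℤ) ^ ((p + 1) / 2) ≡ -2 ^ ((p + 1) / 2) [ZMOD 2 ^ p - 1] := by
    intro h
    have h1 : ((2 : ℤ) ^ p - 1) ∣ 2 ^ ((p + 1) / 2 + 1) := by
      have h2 := h.symm.dvd
      have h3 : (2 : ℤ) ^ ((p + 1) / 2) - -2 ^ ((p + 1) / 2) = 2 ^ ((p + 1) / 2 + 1) := by ring
      rwa [h3] at h2
    have h4 : IsCoprime ((2 : ℤ) ^ p - 1) (2 ^ ((p + 1) / 2 + 1)) := by
      apply IsCoprime.pow_right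
      refine ⟨-1, 2 ^ (p - 1), ?_⟩
      have h5 : (2 : ℤ) ^ p = 2 ^ (p - 1) * 2 := by
        rw [← pow_succ, Nat.sub_add_cancel (by omega)]
      rw [h5]
      ring
    have h6 := h4.isUnit_of_dvd' dvd_rfl h1
    rw [Int.isUnit_iff] at h6
    have h7 : (2 : ℤ) ^ 5 ≤ 2 ^ p := pow_le_pow_right₀ (by norm_num) hp
    norm_num at h7
    omega
  refine ⟨?_, ?_, ?_⟩
  · rcases ha with ha | ha
    · exact ⟨2 * a', by omega⟩
    · exact ⟨-2 * a' - 1, by omega⟩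
  · by_cases hev : Even a'
    · rw [if_pos hev, one_mul] at hcore
      obtain ⟨k, hk⟩ := hev
      exact ⟨fun _ => by omega, fun _ => hcore⟩
    · rw [if_neg hev, neg_one_mul] at hcore
      obtain ⟨k, hk⟩ := Int.not_even_iff_odd.1 hev
      exact ⟨fun h => absurd (h.symm.trans hcore) hne, fun h => by omega⟩
  · by_cases hev : Even a'
    · rw [if_pos hev, one_mul] at hcore
      obtain ⟨k, hk⟩ := hev
      exact ⟨fun h => absurd (hcore.symm.trans h) hne, fun h => by omega⟩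
    · rw [if_neg hev, neg_one_mul] at hcore
      obtain ⟨k, hk⟩ := Int.not_even_iff_odd.1 hev
      exact ⟨fun _ => by omega, fun _ => hcore⟩

end Pool.Agent.Results.MP_35f602_nt.SignDetermined
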